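import Pool.Agent.helper75.LC.Final

set_option autoImplicit false

/-!
# Classes of affine maximal subgroups and classes of cyclic `p`-subgroups

The conjecture of Aschbacher and Guralnick bounds the number `m(G)` of conjugacy classes of maximal
subgroups of a finite group `G` by the number of conjugacy classes of elements. We prove a local form
with cyclic `p`-subgroups, one prime `p` at a time.

A maximal subgroup `M` is called `p`-affine if `G / core(M)` has a nontrivial normal abelian
`p`-subgroup, that is, if the primitive permutation group of `G` on the cosets of `M` is of affine type in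
characteristic `p`. Let `a_p(G)` be the number of conjugacy classes of `p`-affine maximal subgroups and
`c_p(G)` the number of conjugacy classes of nontrivial cyclic `p`-subgroups of `G`.

THEOREM. (1) If every nonabelian composition factor of `G` has a cyclic Sylow `p`-subgroup or is
isomorphic to `PSL(2,l)` for a prime `l ≥ 5` then `a_p(G) ≤ c_p(G)`.
(2) In particular, if `G` is solvable then `m(G) ≤ ∑_p c_p(G)`, the number of conjugacy classes of
nontrivial cyclic subgroups of prime power order.

Outline. Let `N` be a minimal normal subgroup. If `p`-affine maximal subgroups which do not contain `N`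
exist then `N = V` is an elementary abelian `p`-group with a complement `H`, and these maximal subgroups
fall into at most `|H^1(H,V)|` classes. So one needs `|H^1(H,V)|` classes of cyclic `p`-subgroups which
are not conjugate into `H`. They are generated by elements `v h`, `h` a `p`-element of `H`, `v` not
in `[V,h]`. The existence of `|H^1(H,V)|` classes of such pairs `(v,h)` is proved by induction over
the minimal normal subgroups of `H` in the kernel of the action, and reduced for faithful modules to
modules of almost simple groups; if the socle `L` has a cyclic Sylow `p`-subgroup `⟨x⟩` then a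
derivation `d` is determined up to inner derivations by `d(x)` modulo `[V,x]`, and the pairs `(d(x),x)` are used.
-/

namespace Pool.Agent.Results.MP_8aef6e_al.AffineLocal

open scoped MatrixGroups

/-- The conjugacy class of a subgroup. -/
def conjClass {G : Type} [Group G] (H : Subgroup G) : Set (Subgroup G) :=
  Set.range (fun g : G => H.map (MulAut.conj g).toMonoidHom)

/-- The number of conjugacy classes of the subgroups with the property `P`. -/
noncomputable def numClasses {G : Type} [Group G] (P : Subgroup G → Prop) : ℕ :=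
  Nat.card {S : Set (Subgroup G) // ∃ H : Subgroup G, P H ∧ S = conjClass H}

/-- `M` is a `p`-affine maximal subgroup: `G / core(M)` has a nontrivial normal abelian
`p`-subgroup. -/
def IsAffine (p : ℕ) {G : Type} [Group G] (M : Subgroup G) : Prop :=
  IsCoatom M ∧ ∃ A : Subgroup (G ⧸ M.normalCore), A ≠ ⊥ ∧ A.Normal ∧ IsPGroup p A ∧
    ∀ a ∈ A, ∀ b ∈ A, a * b = b * a

/-- `C` is a nontrivial cyclic `p`-subgroup. -/
def IsCyc (p : ℕ) {G : Type} [Group G] (C : Subgroup G) : Prop :=
  C ≠ ⊥ ∧ IsCyclic C ∧ IsPGroup p C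

/-- Every nonabelian composition factor of `G` has the property `S`. -/
def Factors (S : (L : Type) → [Group L] → Prop) (G : Type) [Group G] : Prop :=
  ∀ (H : Subgroup G) (K : Subgroup H) [K.Normal], H.IsSubnormal → IsSimpleGroup (H ⧸ K) →
    (∃ a b : H ⧸ K, a * b ≠ b * a) → S (H ⧸ K)

theorem pcl_eq (p : ℕ) (G : Type) [Group G] [Finite G] :
    Pool.Agent.LC.pcl p G = {S : Set (Subgroup G) | ∃ C : Subgroup G, IsCyc p C ∧ S = conjClass C} := by
  ext S
  constructor
  · rintro ⟨x, hx, ⟨k, hk⟩, rfl⟩
    refine ⟨Subgroup.zpowers x, ⟨?_, inferInstance, ?_⟩, rfl⟩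
    · rw [Ne, Subgroup.zpowers_eq_bot]
      exact hx
    · rintro ⟨y, hy⟩
      refine ⟨k, Subtype.ext ?_⟩
      obtain ⟨n, rfl⟩ := Subgroup.mem_zpowers_iff.1 hy
      change (x ^ n) ^ (p ^ k) = 1
      rw [← zpow_natCast, zpow_comm, zpow_natCast, hk, one_zpow]
  · rintro ⟨C, ⟨h1, h2, h3⟩, rfl⟩
    obtain ⟨x, hx⟩ := h2.exists_generator
    have hz : Subgroup.zpowers (x : G) = C := by
      apply le_antisymm
      · rw [Subgroup.zpowers_le]
        exact x.2
      · intro y hy
        obtain ⟨k, hk⟩ := Subgroup.mem_zpowers_iff.1 (hx ⟨y, hy⟩)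
        refine Subgroup.mem_zpowers_iff.2 ⟨k, ?_⟩
        have := congrArg Subtype.val hk
        simpa using this
    refine ⟨x, ?_, ?_, ?_⟩
    · intro h
      apply h1
      rw [← hz, h, Subgroup.zpowers_one_eq_bot]
    · obtain ⟨k, hk⟩ := h3 x
      exact ⟨k, congrArg Subtype.val hk⟩
    · rw [hz]
      rfl

theorem affine_PA (p : ℕ) {G : Type} [Group G] (M : Subgroup G) (h : IsAffine p M) :
    Pool.Agent.LC.PA p M := by
  obtain ⟨hM, A, hA, hAn, hAp, hAc⟩ := h
  have hcore : M.normalCore ≤ M := M.normalCore_le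
  refine ⟨A.comap (QuotientGroup.mk' M.normalCore), inferInstance, ?_, ?_, ?_⟩
  · intro hle
    apply hA
    have h1 : A.comap (QuotientGroup.mk' M.normalCore) ≤ M.normalCore :=
      (Subgroup.normal_le_normalCore).2 hle
    rw [eq_bot_iff]
    intro x hx
    obtain ⟨g, rfl⟩ := QuotientGroup.mk'_surjective M.normalCore x
    have h2 : g ∈ M.normalCore := h1 hx
    rw [Subgroup.mem_bot]
    exact (QuotientGroup.eq_one_iff g).2 h2
  · intro a ha b hb
    apply hcore
    have h1 := hAc _ ha _ hb
    rw [← QuotientGroup.ker_mk' M.normalCore, MonoidHom.mem_ker, map_mul, map_mul, map_mul, h1,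
      map_inv, map_inv]
    group
  · intro a ha
    obtain ⟨k, hk⟩ := hAp ⟨_, ha⟩
    refine ⟨k, hcore ?_⟩
    rw [← QuotientGroup.ker_mk' M.normalCore, MonoidHom.mem_ker, map_pow]
    exact congrArg Subtype.val hk

theorem card_le_of_PA (p : ℕ) {G : Type} [Group G] [Finite G] (P : Subgroup G → Prop)
    (h : ∀ M, P M → IsCoatom M ∧ Pool.Agent.LC.PA p M)
    (hl : (MX.mcl G (Pool.Agent.LC.PA p)).ncard ≤ (Pool.Agent.LC.pcl p G).ncard) :
    numClasses P ≤ numClasses (G := G) (IsCyc p) := by
  have h1 : numClasses (G := G) (IsCyc p) = (Pool.Agent.LC.pcl p G).ncard := by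
    rw [pcl_eq]
    rfl
  rw [h1]
  refine le_trans ?_ hl
  refine Set.ncard_le_ncard ?_ (Set.toFinite _)
  rintro S ⟨M, hM, rfl⟩
  obtain ⟨h2, h3⟩ := h M hM
  exact ⟨M, h2, h3, rfl⟩

theorem sylow_SP (p : ℕ) [Fact p.Prime] (L : Type) [Group L] [Finite L] (P : Sylow p L)
    (h : IsCyclic P) : Pool.Agent.LC.SP p L := by
  obtain ⟨x, hx⟩ := h.exists_generator
  have hz : Subgroup.zpowers (x : L) = (P : Subgroup L) := by
    apply le_antisymm
    · rw [Subgroup.zpowers_le]
      exact x.2
    · intro y hy
      obtain ⟨k, hk⟩ := Subgroup.mem_zpowers_iff.1 (hx ⟨y, hy⟩)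
      refine Subgroup.mem_zpowers_iff.2 ⟨k, ?_⟩
      have := congrArg Subtype.val hk
      simpa using this
  refine Or.inl ⟨x, ?_, ?_⟩
  · obtain ⟨k, hk⟩ := P.isPGroup' x
    exact ⟨k, congrArg Subtype.val hk⟩
  · rw [hz]
    exact P.not_dvd_index

/-- The local theorem, and its consequence for solvable groups. -/
theorem result (G : Type) [Group G] [Finite G] :
    (∀ p : ℕ, p.Prime →
      Factors (fun L _ => (∃ P : Sylow p L, IsCyclic P) ∨
        ∃ l : ℕ, l.Prime ∧ 5 ≤ l ∧ Nonempty (L ≃* PSL(2, ZMod l))) G →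
      numClasses (G := G) (IsAffine p) ≤ numClasses (G := G) (IsCyc p)) ∧
    (Group.IsSolvable G →
      numClasses (G := G) IsCoatom ≤ numClasses (G := G) (fun C => ∃ p : ℕ, p.Prime ∧ IsCyc p C)) := by
  refine ⟨?_, ?_⟩
  · intro p hp hG
    have : Fact p.Prime := ⟨hp⟩
    refine card_le_of_PA p _ (fun M hM => ⟨hM.1, affine_PA p M hM⟩)
      (Pool.Agent.LC.local_thm p G ?_)
    intro H K _ h1 h2 h3
    rcases hG H K h1 h2 h3 with ⟨P, hP⟩ | h
    · exact sylow_SP p _ P hP
    · exact Or.inr h
  · intro hG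
    have hl : ∀ (p : ℕ) [Fact p.Prime],
        (MX.mcl G (Pool.Agent.LC.PA p)).ncard ≤ (Pool.Agent.LC.pcl p G).ncard := by
      intro p hp
      refine Pool.Agent.LC.local_thm p G ?_
      intro H K _ _ h2 h3
      exfalso
      obtain ⟨a, b, hab⟩ := h3
      have hs : Group.IsSolvable (H ⧸ K) := inferInstance
      exact hab (IsSimpleGroup.comm_iff_isSolvable.2 hs a b)
    have h := Pool.Agent.LC.SOL G hG hl
    have e1 : numClasses (G := G) IsCoatom = (MX.mcl G (fun _ => True)).ncard := by
      have e : MX.mcl G (fun _ => True) =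
          {S : Set (Subgroup G) | ∃ H : Subgroup G, IsCoatom H ∧ S = conjClass H} := by
        ext S
        constructor
        · rintro ⟨H, h1, -, h2⟩
          exact ⟨H, h1, h2⟩
        · rintro ⟨H, h1, h2⟩
          exact ⟨H, h1, trivial, h2⟩
      rw [e]
      rfl
    rw [e1]
    refine h.trans (le_of_eq ?_)
    have e2 : ({S | ∃ x : G, x ≠ 1 ∧ (∃ p k : ℕ, p.Prime ∧ x ^ (p ^ k) = 1) ∧
        S = Set.range (fun g : G => MX.cj g (Subgroup.zpowers x))} : Set (Set (Subgroup G))) =
        {S : Set (Subgroup G) | ∃ C : Subgroup G, (∃ p : ℕ, p.Prime ∧ IsCyc p C) ∧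
          S = conjClass C} := by
      ext S
      constructor
      · rintro ⟨x, hx, ⟨p, k, hp, hk⟩, hS⟩
        have h1 : S ∈ Pool.Agent.LC.pcl p G := ⟨x, hx, ⟨k, hk⟩, hS⟩
        rw [pcl_eq] at h1
        obtain ⟨C, hC, hS'⟩ := h1
        exact ⟨C, ⟨p, hp, hC⟩, hS'⟩
      · rintro ⟨C, ⟨p, hp, hC⟩, hS'⟩
        have h1 : S ∈ {S : Set (Subgroup G) | ∃ C : Subgroup G, IsCyc p C ∧ S = conjClass C} :=
          ⟨C, hC, hS'⟩
        rw [← pcl_eq] at h1
        obtain ⟨x, hx, ⟨k, hk⟩, hS⟩ := h1
        exact ⟨x, hx, ⟨p, k, hp, hk⟩, hS⟩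
    rw [e2]
    rfl

end Pool.Agent.Results.MP_8aef6e_al.AffineLocal
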