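import Pool.Agent.helper81.MG.Final2

set_option autoImplicit false

/-!
# The Aschbacher-Guralnick inequality: reduction to almost simple groups, and `PSL(2,p)`

Let `m(G)` be the number of conjugacy classes of maximal subgroups and `k(G)` the number of conjugacy
classes of elements of a finite group `G`. The conjecture of Aschbacher and Guralnick is
`m(G) < k(G)`. We consider the relative inequality `m(G) - m(G/N) ≤ k(G) - k(G/N)` for normal subgroups
`N` (the case `N = G` gives `m(G) < k(G)`).

THEOREM. The relative inequality, and so `m(G) < k(G)`, holds for all finite groups `G` and all normal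
subgroups `N` of `G`, if every nonabelian composition factor of `G` is isomorphic to `PSL(2,p)` for a
prime `p ≥ 5` or is tame.

A finite simple group `L` is called tame if it has the following three properties.
(1) `|Out(L)| ≤ n(n+1)/2`, where `n` is the number of orbits of `Aut(L)` on the nontrivial elements.
(2) The relative inequality holds for `A` and its socle, if `A` is an almost simple group with socle
isomorphic to `L`. (3) The relative inequality holds for `E` and `W`, if `E` is a group with an abelian
self-centralising minimal normal subgroup `W` which has a complement that is almost simple with socle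
isomorphic to `L`.

Outline. It is enough to consider minimal normal subgroups `N`. If `N` is
abelian then the maximal subgroups which do not contain `N` are the complements, and one has to show
`|H^1(H,V)| ≤ k(VH) - k(H)` for irreducible modules `V`. This is reduced to faithful modules, then to
modules of almost simple groups (with a Shapiro type argument). If `N` is a product of simple groups
`L_i`, permuted by `G`, then the maximal subgroups which do not contain `N` are of product type, of
diagonal type or complements. They are counted by the maximal subgroups of the almost simple group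
induced on `L_1`, by minimal block systems, and by certain normal subgroups of the normaliser of `L_1`.
Enough classes of elements are found in the cosets of `N`, where the number of components `L_i` on which
an element has a marked class is used to distinguish the classes. The groups `PSL(2,p)` are tame: (1)
and (2) follow from the classification of the maximal subgroups of `PSL(2,p)` and `PGL(2,p)`, and (3)
is proved with Sylow subgroups and the normaliser of a split torus.
-/

namespace Pool.Agent.Results.MP_8aef6e_al.AlmostSimpleReduction

open scoped MatrixGroups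

/-- The number of conjugacy classes of maximal subgroups. -/
noncomputable def numMax (G : Type) [Group G] : ℕ :=
  Nat.card {S : Set (Subgroup G) // ∃ H : Subgroup G, IsCoatom H ∧
    S = Set.range (fun g : G => H.map (MulAut.conj g).toMonoidHom)}

/-- The number of conjugacy classes of elements. -/
noncomputable def numCl (G : Type) [Group G] : ℕ := Nat.card (ConjClasses G)

/-- The relative inequality `m(G) - m(G/N) ≤ k(G) - k(G/N)`. -/
def RelIneq (G : Type) [Group G] (N : Subgroup G) [N.Normal] : Prop :=
  numMax G + numCl (G ⧸ N) ≤ numMax (G ⧸ N) + numCl G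

/-- `A` is almost simple with socle `L`: `L` is a nonabelian simple normal subgroup with trivial
centraliser. -/
structure AlmostSimple {A : Type} [Group A] (L : Subgroup A) : Prop where
  normal : L.Normal
  simple : IsSimpleGroup L
  noncomm : ∃ a ∈ L, ∃ b ∈ L, a * b ≠ b * a
  centralizer : ∀ a : A, (∀ x ∈ L, a * x = x * a) → a = 1

/-- `W` is an abelian self-centralising minimal normal subgroup of `E` with complement `H`. -/
structure Affine {E : Type} [Group E] (W H : Subgroup E) : Prop where
  normal : W.Normal
  nontrivial : W ≠ ⊥
  minimal : ∀ K : Subgroup E, K.Normal → K ≤ W → K = ⊥ ∨ K = W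
  comm : ∀ a ∈ W, ∀ b ∈ W, a * b = b * a
  centralizer : ∀ g : E, (∀ x ∈ W, g * x = x * g) → g ∈ W
  inf_eq : W ⊓ H = ⊥
  sup_eq : W ⊔ H = ⊤

/-- The number of orbits of `Aut(L)` on the nontrivial elements of `L`. -/
noncomputable def autClasses (L : Type) [Group L] : ℕ :=
  Nat.card {S : Set L // ∃ x : L, x ≠ 1 ∧ S = Set.range (fun β : MulAut L => β x)}

/-- The order of the outer automorphism group. -/
noncomputable def outOrder (L : Type) [Group L] : ℕ := (MulAut.conj : L →* MulAut L).range.index

/-- The three conditions on a simple group `L`. -/
structure Tame (L : Type) [Group L] : Prop where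
  out : 2 * outOrder L ≤ autClasses L * (autClasses L + 1)
  almostSimple : ∀ (A : Type) [Group A] [Finite A] (M : Subgroup A) [M.Normal], AlmostSimple M →
    Nonempty (L ≃* M) → RelIneq A M
  affine : ∀ (E : Type) [Group E] [Finite E] (W H : Subgroup E) [W.Normal] (M : Subgroup H),
    Affine W H → AlmostSimple M → Nonempty (L ≃* M) → RelIneq E W

/-- Every nonabelian composition factor is isomorphic to some `PSL(2,p)`, `p ≥ 5` prime, or tame. -/
def GoodFactors (G : Type) [Group G] : Prop :=
  ∀ (H : Subgroup G) (K : Subgroup H) [K.Normal], H.IsSubnormal → IsSimpleGroup (H ⧸ K) →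
    (∃ a b : H ⧸ K, a * b ≠ b * a) →
      (∃ p : ℕ, p.Prime ∧ 5 ≤ p ∧ Nonempty ((H ⧸ K) ≃* PSL(2, ZMod p))) ∨ Tame (H ⧸ K)

theorem relIneq_iff {G : Type} [Group G] [Finite G] (N : Subgroup G) [N.Normal] :
    RelIneq G N ↔ MX.RI G N := (MG.RI_iff N).symm

theorem tame_iff {L : Type} [Group L] : Tame L ↔ MG.Tam L := by
  constructor
  · rintro ⟨h1, h2, h3⟩
    refine ⟨?_, ?_, ?_⟩
    · unfold MG.OutB
      rw [← MG.autCl_eq]
      exact h1
    · intro A _ _ M _ hM e
      exact (relIneq_iff M).mp (h2 A M ⟨hM.norm, hM.simple, hM.nc, hM.cent⟩ e)
    · intro E _ _ W H _ M hA hM e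
      exact (relIneq_iff W).mp (h3 E W H M ⟨hA.min.1, hA.min.2.1, hA.min.2.2, hA.comm, hA.cent,
        hA.dis, hA.top⟩ ⟨hM.norm, hM.simple, hM.nc, hM.cent⟩ e)
  · rintro ⟨h1, h2, h3⟩
    refine ⟨?_, ?_, ?_⟩
    · unfold MG.OutB at h1
      rw [← MG.autCl_eq] at h1
      exact h1
    · intro A _ _ M _ hM e
      exact (relIneq_iff M).mpr (h2 A M ⟨hM.normal, hM.simple, hM.noncomm, hM.centralizer⟩ e)
    · intro E _ _ W H _ M hA hM e
      exact (relIneq_iff W).mpr (h3 E W H M ⟨⟨hA.normal, hA.nontrivial, hA.minimal⟩, hA.comm,
        hA.centralizer, hA.inf_eq, hA.sup_eq⟩ ⟨hM.normal, hM.simple, hM.noncomm, hM.centralizer⟩ e)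

/-- The relative inequality, and so `m(G) < k(G)`, if every nonabelian composition factor of `G` is
isomorphic to `PSL(2,p)` for a prime `p ≥ 5` or is tame. -/
theorem result (G : Type) [Group G] [Finite G] (hG : GoodFactors G) :
    numMax G < numCl G ∧ ∀ (N : Subgroup G) [N.Normal], RelIneq G N := by
  have h : MG.CF (fun L _ => MG.Tam L) G := by
    intro H K _ h1 h2 h3
    rcases hG H K h1 h2 h3 with ⟨p, hp, h5, ⟨e⟩⟩ | h4
    · exact MG.Tam_congr e.symm (MG.Tam_psl p hp h5)
    · exact tame_iff.mp h4
  exact ⟨MX.main_of_RI (MG.RI_tam G h ⊤), fun N _ => (relIneq_iff N).mpr (MG.RI_tam G h N)⟩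

end Pool.Agent.Results.MP_8aef6e_al.AlmostSimpleReduction
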